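import Pool.Agent.Helper30.EL.St

/-!
# Project EL, module SEL: many primes `s` with `s ^ 2 + s + 1` prime to `2 n`
-/

set_option autoImplicit false

noncomputable section

namespace Pool.Agent.Helper3.EL

open Finset Filter Topology ArithmeticFunction
open Pool.Agent.Helper9.TW (gm Qs fm StC9)
open Pool.Agent.Helper18.TR (StBonf StFLmain StLevel)
open Pool.Agent.Helper15.AB (Th StDB StMT)
open Pool.Agent.Helper60.GP (II IsB JJ Err StBVc StPNT StBump StM2)
open Pool.Agent.Helper48.BK (StSW)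
open Pool.Agent.Helper93.KS (bq Pq SW bmq idq ejq mg Gb Vq AD UQ LQ HU HL StBXQ StT1 StDK StCEL StBMQ StSQR StDUA)
open Pool.Agent.Helper30.EL

/-! ### Roots modulo a prime -/

private theorem not_dvd_sub {p a b : ℕ} (ha : a < p) (hb : b < p) (hab : a ≠ b) :
    ¬ (p : ℤ) ∣ (a : ℤ) - b := by
  rintro ⟨k, hk⟩
  have h1 : (a : ℤ) < p := by exact_mod_cast ha
  have h2 : (b : ℤ) < p := by exact_mod_cast hb
  have h3 : (0 : ℤ) ≤ a := Int.natCast_nonneg a
  have h4 : (0 : ℤ) ≤ b := Int.natCast_nonneg b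
  have hk0 : k = 0 := by
    by_contra h
    rcases lt_or_gt_of_ne h with h | h
    · nlinarith
    · nlinarith
  rw [hk0, mul_zero] at hk
  apply hab
  have : (a : ℤ) = b := by linarith
  exact_mod_cast this

private theorem card_roots (p : ℕ) (hp : p.Prime) :
    ((range p).filter (fun r => p ∣ r ^ 2 + r + 1)).card ≤ 2 := by
  by_contra hcon
  push Not at hcon
  obtain ⟨a, ha, b, hb, c, hc, hab, hac, hbc⟩ := Finset.two_lt_card.1 hcon
  rw [mem_filter, mem_range] at ha hb hc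
  have hpi : Prime (p : ℤ) := Nat.prime_iff_prime_int.1 hp
  have key : ∀ x y : ℕ, x < p → y < p → x ≠ y → p ∣ x ^ 2 + x + 1 → p ∣ y ^ 2 + y + 1 →
      (p : ℤ) ∣ (x : ℤ) + y + 1 := by
    intro x y hx hy hxy h1 h2
    have e1 : (p : ℤ) ∣ (x : ℤ) ^ 2 + x + 1 := by exact_mod_cast Int.natCast_dvd_natCast.2 h1
    have e2 : (p : ℤ) ∣ (y : ℤ) ^ 2 + y + 1 := by exact_mod_cast Int.natCast_dvd_natCast.2 h2
    have e3 : (p : ℤ) ∣ ((x : ℤ) - y) * (x + y + 1) := by
      have := dvd_sub e1 e2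
      have e4 : (x : ℤ) ^ 2 + x + 1 - (y ^ 2 + y + 1) = ((x : ℤ) - y) * (x + y + 1) := by ring
      rwa [e4] at this
    exact (hpi.dvd_or_dvd e3).resolve_left (not_dvd_sub hx hy hxy)
  have h1 := key a b ha.1 hb.1 hab ha.2 hb.2
  have h2 := key a c ha.1 hc.1 hac ha.2 hc.2
  have h3 := dvd_sub h1 h2
  have h4 : (a : ℤ) + b + 1 - (a + c + 1) = (b : ℤ) - c := by ring
  rw [h4] at h3
  exact not_dvd_sub hb.1 hc.1 hbc h3

private theorem count_le (p M : ℕ) (hp : p.Prime) :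
    ((Icc 1 M).filter (fun s => p ∣ s ^ 2 + s + 1)).card ≤ 2 * (M / p + 1) := by
  have h : ((Icc 1 M).filter (fun s => p ∣ s ^ 2 + s + 1)).card ≤
      (((range p).filter (fun r => p ∣ r ^ 2 + r + 1)) ×ˢ range (M / p + 1)).card := by
    refine Finset.card_le_card_of_injOn (fun s => (s % p, s / p)) ?_ ?_
    · intro s hs
      rw [Finset.mem_coe, mem_filter, mem_Icc] at hs
      rw [Finset.mem_coe, mem_product, mem_filter, mem_range, mem_range]
      refine ⟨⟨Nat.mod_lt _ hp.pos, ?_⟩, Nat.lt_succ_of_le (Nat.div_le_div_right hs.1.2)⟩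
      have h1 : s ^ 2 + s + 1 ≡ (s % p) ^ 2 + s % p + 1 [MOD p] :=
        (((Nat.mod_modEq s p).pow 2).add (Nat.mod_modEq s p)).symm.add_right 1
      exact (h1.dvd_iff dvd_rfl).1 hs.2
    · intro s _ t _ h
      have h1 : s % p = t % p := congrArg Prod.fst h
      have h2 : s / p = t / p := congrArg Prod.snd h
      rw [← Nat.mod_add_div s p, ← Nat.mod_add_div t p, h1, h2]
  rw [card_product, card_range] at h
  exact h.trans (Nat.mul_le_mul_right _ (card_roots p hp))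

/-! ### Good numbers -/

/-- The good numbers. -/
private def GG (b a : ℕ) (θ : ℝ) : Finset ℕ :=
  (PB (a : ℝ) b).filter (fun s => ∀ p ∈ Qs a θ, ¬ p ∣ vv 0 1 s)

private theorem vv_eq (s : ℕ) : vv 0 1 s = s ^ 2 + s + 1 := by
  unfold vv
  ring

private def del (m : ℕ) : ℝ := if m = 1 then 1 else 0

private theorem sw_del (a : ℕ) (θ : ℝ) : SW a θ 1 1 0 1 del := by
  intro q
  unfold del
  split_ifs with h
  · subst h
    refine ⟨by simp, fun _ => ⟨squarefree_one, fun p hp hd => ?_, by simp⟩⟩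
    exact absurd (Nat.dvd_one.1 hd) hp.one_lt.ne'
  · exact ⟨by simp, fun h => absurd rfl h⟩

private theorem sum_del (v : ℕ) (hv : v ≠ 0) : ∑ m ∈ v.divisors, del m = 1 := by
  unfold del
  rw [Finset.sum_ite_eq' v.divisors 1 (fun _ => (1 : ℝ))]
  simp [hv]

private theorem mg_del (a : ℕ) (ha : 1 ≤ a) (g : ℕ → ℝ) : mg a g del = 1 := by
  unfold mg del
  rw [Finset.sum_eq_single 1]
  · simp
  · intro q _ hq
    simp [hq]
  · intro h
    exfalso
    apply h
    rw [mem_range]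
    have : 1 ≤ a ^ 2 := Nat.one_le_pow _ _ ha
    omega

private theorem ge_good (hL : StLVE) (h8 : StC8E) (hV : StVLE) (hP : StPNT) (hu : StBump) :
    ∃ θ : ℝ, 0 < θ ∧ θ ≤ 1 / 100 ∧ ∀ b : ℕ, b < 30 → Nat.Coprime b 30 →
      ∃ c₁ : ℝ, 0 < c₁ ∧ ∃ a₁ : ℕ, 3 ≤ a₁ ∧ ∀ a : ℕ, a₁ ≤ a →
        c₁ * a / Real.log a ^ 4 ≤ ((GG b a θ).card : ℝ) := by
  obtain ⟨ω, hω, hJ, -⟩ := hu 1 one_pos
  obtain ⟨f, -, h8'⟩ := h8
  obtain ⟨θ, hθ, hθ1, hL'⟩ := hL ω hω f
  obtain ⟨c₀, hc₀, hV'⟩ := hV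
  refine ⟨θ, hθ, hθ1, fun b hb hb' => ?_⟩
  obtain ⟨a₀, hL2⟩ := hL' θ hθ le_rfl 4
  obtain ⟨x₀, hx₀⟩ := hP ω hω (JJ ω / 2) (by positivity)
  obtain ⟨J, hJJ⟩ : ∃ J, J = JJ ω := ⟨_, rfl⟩
  rw [← hJJ] at hJ hx₀
  have hev : ∀ᶠ a : ℕ in atTop, 32000 / (999 * J * c₀) ≤ Real.log a :=
    (Real.tendsto_log_atTop.comp tendsto_natCast_atTop_atTop).eventually_ge_atTop _
  obtain ⟨a₂, ha₂⟩ := eventually_atTop.1 hev
  refine ⟨J * c₀ * 999 / 64000, by positivity, max (max a₀ a₂) (max 3 ⌈x₀⌉₊), ?_, ?_⟩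
  · exact (le_max_left _ _).trans (le_max_right _ _)
  intro a ha
  have ha0 : a₀ ≤ a := ((le_max_left _ _).trans (le_max_left _ _)).trans ha
  have ha2 : a₂ ≤ a := ((le_max_right _ _).trans (le_max_left _ _)).trans ha
  have ha3 : 3 ≤ a := ((le_max_left _ _).trans (le_max_right _ _)).trans ha
  have hax : x₀ ≤ a := by
    have h1 : ⌈x₀⌉₊ ≤ a := ((le_max_right _ _).trans (le_max_right _ _)).trans ha
    exact (Nat.le_ceil x₀).trans (by exact_mod_cast h1)
  have haR : (3 : ℝ) ≤ a := by exact_mod_cast ha3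
  have hapos : (0 : ℝ) < a := by linarith
  have hlog : 1 < Real.log a := by
    rw [Real.lt_log_iff_exp_lt hapos]
    have := Real.exp_one_lt_d9
    linarith
  have hcop : Nat.Coprime 1 (2 * 0) := Nat.coprime_one_left _
  have main := hL2 1 a 0 1 b 1 1 a θ 0 1 del ha0 hcop hb hb'
    (by
      have : (a : ℝ) ^ (999 / 1000 : ℝ) ≤ (a : ℝ) ^ (1 : ℝ) :=
        Real.rpow_le_rpow_of_exponent_le (by linarith) (by norm_num)
      simpa using this)
    le_rfl hθ (by simp) zero_le_one le_rfl (by norm_num) (sw_del a θ)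
  rw [mg_del a (by omega), mul_one, one_mul] at main
  have hsum : ∀ q ∈ PB (a : ℝ) b, wq ω a q * (tq 1 a θ f 0 1 q *
      ∑ m ∈ (vv 0 1 q).divisors, del m) = wq ω a q * tq 1 a θ f 0 1 q := by
    intro q _
    rw [sum_del _ (by rw [vv_eq]; omega), mul_one]
  rw [Finset.sum_congr rfl hsum] at main
  obtain ⟨h81, h82, -, h84, -⟩ := h8' a 0 1 θ hcop (by omega) hθ
  have hwq : ∀ q, 0 ≤ wq ω a q := fun q => mul_nonneg vonMangoldt_nonneg (hω.nonneg _)
  have hlow : Th ω a / 8 * Tm 1 a θ f 0 1 - a / Real.log a ^ 4 ≤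
      ∑ q ∈ PB (a : ℝ) b, wq ω a q * q0 a θ 0 1 q := by
    have h1 := (abs_le.1 main).1
    have h2 : ∑ q ∈ PB (a : ℝ) b, wq ω a q * tq 1 a θ f 0 1 q ≤
        ∑ q ∈ PB (a : ℝ) b, wq ω a q * q0 a θ 0 1 q :=
      Finset.sum_le_sum fun q _ => mul_le_mul_of_nonneg_left (h81 q).1 (hwq q)
    linarith
  -- upper bound for the sum
  have hup : ∑ q ∈ PB (a : ℝ) b, wq ω a q * q0 a θ 0 1 q ≤
      ((GG b a θ).card : ℝ) * Real.log (3 * a) := by
    have h1 : ∑ q ∈ PB (a : ℝ) b, wq ω a q * q0 a θ 0 1 q =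
        ∑ q ∈ GG b a θ, wq ω a q := by
      rw [GG, Finset.sum_filter]
      refine Finset.sum_congr rfl fun q _ => ?_
      unfold q0
      split_ifs <;> simp
    rw [h1, ← nsmul_eq_mul, ← Finset.sum_const]
    refine Finset.sum_le_sum fun q hq => ?_
    rw [GG, mem_filter, PB, mem_filter, II, mem_Icc] at hq
    have hqp := hq.1.2.1
    have hq1 : (q : ℝ) ≤ 3 * a := by
      have := hq.1.1.2
      exact (Nat.le_floor_iff (by positivity)).1 this
    have hq0 : (0 : ℝ) < q := by exact_mod_cast hqp.pos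
    have h2 : Λ q ≤ Real.log (3 * a) := by
      rw [vonMangoldt_apply_prime hqp]
      exact Real.log_le_log hq0 hq1
    have h3 := hω.le_half (Real.log (q / a))
    have h4 := hω.nonneg (Real.log (q / a))
    have h5 : (0 : ℝ) ≤ Λ q := vonMangoldt_nonneg
    unfold wq
    nlinarith
  have hTh : J / 2 * a ≤ Th ω a := by
    have := (abs_le.1 (hx₀ a hax)).1
    linarith
  have hV2 := (hV' a 0 1 θ hcop ha3 hθ (by linarith)).1
  have hl3 : 0 < Real.log a ^ 3 := by positivity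
  have hTm : (1 - 1 / 1000) * (c₀ / Real.log a ^ 3) ≤ Tm 1 a θ f 0 1 := by
    refine le_trans ?_ h84
    exact mul_le_mul_of_nonneg_left hV2 (by norm_num)
  have hprod : J / 2 * a / 8 * ((1 - 1 / 1000) * (c₀ / Real.log a ^ 3)) ≤
      Th ω a / 8 * Tm 1 a θ f 0 1 := by
    have h1 : 0 ≤ (1 - 1 / 1000 : ℝ) * (c₀ / Real.log a ^ 3) := by positivity
    have h2 : J / 2 * a / 8 ≤ Th ω a / 8 := by linarith
    have h3 : 0 ≤ J / 2 * a / 8 := by positivity
    exact mul_le_mul h2 hTm h1 (h3.trans h2)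
  have hsmall : a / Real.log a ^ 4 ≤ J * c₀ * 999 / 32000 * (a / Real.log a ^ 3) := by
    have h1 := ha₂ a ha2
    have h2 : 0 < 999 * J * c₀ := by positivity
    rw [div_le_iff₀ h2] at h1
    rw [div_le_iff₀ (by positivity)]
    have h3 : J * c₀ * 999 / 32000 * (a / Real.log a ^ 3) * Real.log a ^ 4 =
        a * (Real.log a * (999 * J * c₀) / 32000) := by
      field_simp
    rw [h3]
    have h4 : 1 ≤ Real.log a * (999 * J * c₀) / 32000 := by linarith
    nlinarith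
  have hbig : J * c₀ * 999 / 32000 * (a / Real.log a ^ 3) ≤
      ((GG b a θ).card : ℝ) * Real.log (3 * a) := by
    have h1 : J / 2 * a / 8 * ((1 - 1 / 1000) * (c₀ / Real.log a ^ 3)) =
        2 * (J * c₀ * 999 / 32000 * (a / Real.log a ^ 3)) := by
      field_simp
      ring
    linarith
  have hl3a : Real.log (3 * a) ≤ 2 * Real.log a := by
    rw [Real.log_mul (by norm_num) (by linarith)]
    have : Real.log 3 ≤ Real.log a := Real.log_le_log (by norm_num) haR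
    linarith
  have hfin : J * c₀ * 999 / 32000 * (a / Real.log a ^ 3) ≤
      ((GG b a θ).card : ℝ) * (2 * Real.log a) :=
    hbig.trans (mul_le_mul_of_nonneg_left hl3a (Nat.cast_nonneg _))
  rw [div_le_iff₀ (by positivity)]
  have h6 : J * c₀ * 999 / 32000 * (a / Real.log a ^ 3) * Real.log a ^ 3 =
      2 * (J * c₀ * 999 / 64000 * a) := by
    field_simp
    ring
  have h7 := mul_le_mul_of_nonneg_right hfin hl3.le
  rw [h6] at h7
  have h8 : ((GG b a θ).card : ℝ) * (2 * Real.log a) * Real.log a ^ 3 =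
      2 * (((GG b a θ).card : ℝ) * Real.log a ^ 4) := by ring
  rw [h8] at h7
  linarith

/-! ### The bad numbers -/

private theorem card_pf (n : ℕ) (hn : n ≠ 0) : (n.primeFactors.card : ℝ) * Real.log 2 ≤ Real.log n := by
  have h1 : 2 ^ n.primeFactors.card ≤ n := by
    refine le_trans ?_ (Nat.le_of_dvd (Nat.pos_of_ne_zero hn) (Nat.prod_primeFactors_dvd n))
    refine Finset.pow_card_le_prod _ _ _ fun p hp => ?_
    exact (Nat.prime_of_mem_primeFactors hp).two_le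
  have h2 : ((2 : ℝ) ^ n.primeFactors.card) ≤ n := by exact_mod_cast h1
  have h3 := Real.log_le_log (by positivity) h2
  rwa [Real.log_pow] at h3

private theorem bad_card {b a n : ℕ} {θ L : ℝ} (hn : n ≠ 0) (hLn : L = Real.log n) (hL : 3 ≤ L)
    (hθ : L ^ 2 ≤ (a : ℝ) ^ θ) (haL : L ^ 2 ≤ a)
    (hb : ∀ q : ℕ, q % 30 = b → Nat.Coprime (vv 0 1 q) 30) :
    (((GG b a θ).filter (fun s => ¬ Nat.Coprime (s ^ 2 + s + 1) (2 * n))).card : ℝ) ≤ 12 * a / L := by
  classical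
  have hsub : (GG b a θ).filter (fun s => ¬ Nat.Coprime (s ^ 2 + s + 1) (2 * n)) ⊆
      (n.primeFactors.filter (fun p : ℕ => L ^ 2 ≤ (p : ℝ))).biUnion
        (fun p : ℕ => (Icc 1 (3 * a)).filter (fun s : ℕ => p ∣ s ^ 2 + s + 1)) := by
    intro s hs
    rw [mem_filter, GG, mem_filter, PB, mem_filter, II, mem_Icc] at hs
    obtain ⟨⟨⟨⟨hs1, hs2⟩, -, hs30⟩, hsQ⟩, hsc⟩ := hs
    obtain ⟨p, hp, hp1, hp2⟩ := Nat.Prime.not_coprime_iff_dvd.1 hsc
    have hco := hb s hs30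
    rw [vv_eq] at hco
    have hnot : ∀ r : ℕ, r.Prime → r ∣ 30 → p ≠ r := by
      rintro r hr hr30 rfl
      have := Nat.dvd_gcd hp1 hr30
      rw [hco] at this
      exact hr.one_lt.ne' (Nat.dvd_one.1 this)
    have hp2' := hnot 2 Nat.prime_two (by norm_num)
    have hp3' := hnot 3 Nat.prime_three (by norm_num)
    have hp5' := hnot 5 Nat.prime_five (by norm_num)
    have hp7 : 7 ≤ p := by
      have h2 := hp.two_le
      by_contra hcon
      have : p = 2 ∨ p = 3 ∨ p = 4 ∨ p = 5 ∨ p = 6 := by omega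
      rcases this with h | h | h | h | h
      · exact hp2' h
      · exact hp3' h
      · rw [h] at hp; exact absurd hp (by norm_num)
      · exact hp5' h
      · rw [h] at hp; exact absurd hp (by norm_num)
    have hpn : p ∣ n := by
      rcases (Nat.Prime.dvd_mul hp).1 hp2 with h | h
      · exact absurd ((Nat.prime_dvd_prime_iff_eq hp Nat.prime_two).1 h) hp2'
      · exact h
    have hpL : L ^ 2 ≤ (p : ℝ) := by
      by_contra hcon
      push Not at hcon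
      have h1 : (p : ℝ) < (a : ℝ) ^ θ := lt_of_lt_of_le hcon hθ
      have h2 : p ∈ Qs a θ := by
        rw [Qs, mem_filter, mem_Icc]
        exact ⟨⟨hp7, Nat.le_floor h1.le⟩, hp, h1⟩
      apply hsQ p h2
      rw [vv_eq]
      exact hp1
    rw [mem_biUnion]
    refine ⟨p, ?_, ?_⟩
    · rw [mem_filter, Nat.mem_primeFactors]
      exact ⟨⟨hp, hpn, hn⟩, hpL⟩
    · rw [mem_filter, mem_Icc]
      refine ⟨⟨hs1, ?_⟩, hp1⟩
      have h3 : ((3 * a : ℕ) : ℝ) = 3 * (a : ℝ) := by push_cast; ring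
      rw [← h3, Nat.floor_natCast] at hs2
      exact hs2
  have hL0 : 0 < L := by linarith
  have h1 : (((GG b a θ).filter (fun s => ¬ Nat.Coprime (s ^ 2 + s + 1) (2 * n))).card : ℝ) ≤
      ∑ p ∈ n.primeFactors.filter (fun p : ℕ => L ^ 2 ≤ (p : ℝ)), 2 * (3 * a / L ^ 2 + 1) := by
    have h2 := (Finset.card_le_card hsub).trans Finset.card_biUnion_le
    have h3 : (((GG b a θ).filter (fun s => ¬ Nat.Coprime (s ^ 2 + s + 1) (2 * n))).card : ℝ) ≤
        ∑ p ∈ n.primeFactors.filter (fun p : ℕ => L ^ 2 ≤ (p : ℝ)),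
          (((Icc 1 (3 * a)).filter (fun s : ℕ => p ∣ s ^ 2 + s + 1)).card : ℝ) := by
      exact_mod_cast h2
    refine h3.trans (Finset.sum_le_sum fun p hp => ?_)
    rw [mem_filter, Nat.mem_primeFactors] at hp
    obtain ⟨⟨hpp, -, -⟩, hpL⟩ := hp
    have h4 : (((Icc 1 (3 * a)).filter (fun s : ℕ => p ∣ s ^ 2 + s + 1)).card : ℝ) ≤
        2 * (((3 * a / p : ℕ) : ℝ) + 1) := by
      exact_mod_cast count_le p (3 * a) hpp
    have h5 : ((3 * a / p : ℕ) : ℝ) ≤ 3 * a / p := by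
      have := Nat.cast_div_le (α := ℝ) (m := 3 * a) (n := p)
      push_cast at this
      exact this
    have h6 : (3 * a / p : ℝ) ≤ 3 * a / L ^ 2 := by
      apply div_le_div_of_nonneg_left (by positivity) (by positivity) hpL
    linarith
  rw [Finset.sum_const, nsmul_eq_mul] at h1
  have h7 : ((n.primeFactors.filter (fun p : ℕ => L ^ 2 ≤ (p : ℝ))).card : ℝ) ≤ L / Real.log 2 := by
    have h8 : ((n.primeFactors.filter (fun p : ℕ => L ^ 2 ≤ (p : ℝ))).card : ℝ) ≤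
        (n.primeFactors.card : ℝ) := by exact_mod_cast Finset.card_filter_le _ _
    have h9 := card_pf n hn
    rw [← hLn] at h9
    rw [le_div_iff₀ (Real.log_pos (by norm_num))]
    exact le_trans (mul_le_mul_of_nonneg_right h8 (Real.log_nonneg (by norm_num))) h9
  have h10 : 2 * (3 * a / L ^ 2 + 1) ≤ 8 * a / L ^ 2 := by
    have : (1 : ℝ) ≤ a / L ^ 2 := by rwa [one_le_div (by positivity)]
    have e : (8 * a / L ^ 2 : ℝ) = 2 * (3 * a / L ^ 2 + a / L ^ 2) := by ring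
    rw [e]
    linarith
  have h11 : (0 : ℝ) ≤ 8 * a / L ^ 2 := by positivity
  have hlog2 : (0.69 : ℝ) < Real.log 2 := by
    have := Real.log_two_gt_d9
    linarith
  calc _ ≤ ((n.primeFactors.filter (fun p : ℕ => L ^ 2 ≤ (p : ℝ))).card : ℝ) *
        (2 * (3 * a / L ^ 2 + 1)) := h1
    _ ≤ (L / Real.log 2) * (8 * a / L ^ 2) :=
        mul_le_mul h7 h10 (by positivity) (by positivity)
    _ = 8 * a / (Real.log 2 * L) := by
        field_simp
    _ ≤ 12 * a / L := by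
        rw [div_le_div_iff₀ (by positivity) hL0]
        have h12 : (0 : ℝ) ≤ a * L := by positivity
        nlinarith

theorem hSEL (hL : StLVE) (h8 : StC8E) (hV : StVLE) (h3 : StB30) (hP : StPNT) (hu : StBump) :
    StSEL := by
  classical
  obtain ⟨θ, hθ, hθ1, hG⟩ := ge_good hL h8 hV hP hu
  obtain ⟨b, hb1, hb2, hb3⟩ := h3 0 1 (Nat.coprime_one_left _)
  obtain ⟨c₁, hc₁, a₁, ha₁, hG1⟩ := hG b hb1 hb2
  obtain ⟨C, hC⟩ : ∃ C : ℕ, C = ⌈3 / θ⌉₊ := ⟨_, rfl⟩
  have hCθ : 3 ≤ C * θ := by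
    have h1 : 3 / θ ≤ C := hC ▸ Nat.le_ceil _
    rwa [div_le_iff₀ hθ] at h1
  refine ⟨C + 1, fun K => ?_⟩
  have tL : Tendsto (fun n : ℕ => Real.log n) atTop atTop :=
    Real.tendsto_log_atTop.comp tendsto_natCast_atTop_atTop
  have hC0 : C ≠ 0 := by
    rintro h
    rw [h] at hCθ
    norm_num at hCθ
  have tp : Tendsto (fun L : ℝ => ⌊L ^ C⌋₊) atTop atTop :=
    tendsto_nat_floor_atTop.comp (tendsto_pow_atTop hC0)
  -- `a` in terms of `L`
  have ev1 : ∀ᶠ L : ℝ in atTop, a₁ ≤ ⌊L ^ C⌋₊ := tp.eventually_ge_atTop _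
  have ev2 : ∀ᶠ L : ℝ in atTop, 3 ≤ L := eventually_ge_atTop 3
  have ev3 : ∀ᶠ L : ℝ in atTop, 24 * (C : ℝ) ^ 4 * Real.log L ^ 4 ≤ c₁ * L := by
    have h1 := (Real.isLittleO_pow_log_id_atTop (n := 4)).bound
      (show 0 < c₁ / (24 * (C : ℝ) ^ 4 + 1) by positivity)
    filter_upwards [h1, eventually_ge_atTop (3 : ℝ)] with L hL1 hL2
    rw [Real.norm_eq_abs, Real.norm_eq_abs, id, abs_of_nonneg (by positivity : (0:ℝ) ≤ L)] at hL1
    have h2 := (le_abs_self _).trans hL1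
    have h3 : (0 : ℝ) ≤ 24 * (C : ℝ) ^ 4 := by positivity
    have h4 := mul_le_mul_of_nonneg_left h2 h3
    refine h4.trans ?_
    have h5 : 24 * (C : ℝ) ^ 4 * (c₁ / (24 * (C : ℝ) ^ 4 + 1) * L) =
        (24 * (C : ℝ) ^ 4 / (24 * (C : ℝ) ^ 4 + 1)) * (c₁ * L) := by
      field_simp
    rw [h5]
    have h6 : 24 * (C : ℝ) ^ 4 / (24 * (C : ℝ) ^ 4 + 1) ≤ 1 := by
      rw [div_le_one (by positivity)]
      linarith
    have h7 : 0 ≤ c₁ * L := by positivity
    nlinarith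
  have ev4' : ∀ᶠ a : ℕ in atTop, (K : ℝ) < c₁ / 2 * a / Real.log a ^ 4 := by
    have h1 := (Real.isLittleO_pow_log_id_atTop (n := 4)).bound
      (show 0 < c₁ / (2 * ((K : ℝ) + 1)) by positivity)
    have h2 := tendsto_natCast_atTop_atTop (R := ℝ) |>.eventually h1
    filter_upwards [h2, eventually_ge_atTop 3] with a ha1 ha2
    have haR : (3 : ℝ) ≤ a := by exact_mod_cast ha2
    have hlog : 0 < Real.log a := Real.log_pos (by linarith)
    rw [Real.norm_eq_abs, Real.norm_eq_abs, id, abs_of_nonneg (by positivity : (0:ℝ) ≤ (a : ℝ)),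
      abs_of_nonneg (by positivity : (0:ℝ) ≤ Real.log a ^ 4)] at ha1
    rw [lt_div_iff₀ (by positivity)]
    have h3 : (K : ℝ) * Real.log a ^ 4 ≤ K * (c₁ / (2 * ((K : ℝ) + 1)) * a) :=
      mul_le_mul_of_nonneg_left ha1 (Nat.cast_nonneg K)
    refine h3.trans_lt ?_
    have h4 : (K : ℝ) * (c₁ / (2 * ((K : ℝ) + 1)) * a) = (K / ((K : ℝ) + 1)) * (c₁ / 2 * a) := by
      field_simp
    rw [h4]
    have h5 : (K : ℝ) / ((K : ℝ) + 1) < 1 := by
      rw [div_lt_one (by positivity)]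
      linarith
    have h6 : 0 < c₁ / 2 * a := by positivity
    nlinarith
  have ev4 : ∀ᶠ L : ℝ in atTop, (K : ℝ) < c₁ / 2 * (⌊L ^ C⌋₊ : ℝ) / Real.log (⌊L ^ C⌋₊ : ℝ) ^ 4 :=
    tp.eventually ev4'
  have ev := tL.eventually (((ev1.and ev2).and ev3).and ev4)
  obtain ⟨n₀, hn₀⟩ := eventually_atTop.1 ev
  refine ⟨max n₀ 1, fun n hn => ?_⟩
  obtain ⟨⟨⟨e1, e2⟩, e3⟩, e4⟩ := hn₀ n ((le_max_left _ _).trans hn)
  have hn1 : n ≠ 0 := by
    have := (le_max_right n₀ 1).trans hn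
    omega
  obtain ⟨L, hLn⟩ : ∃ L, L = Real.log n := ⟨_, rfl⟩
  rw [← hLn] at e1 e2 e3 e4
  obtain ⟨a, ha⟩ : ∃ a, a = ⌊L ^ C⌋₊ := ⟨_, rfl⟩
  rw [← ha] at e1 e4
  have hL0 : 0 < L := by linarith
  have haL : (a : ℝ) ≤ L ^ C := by
    rw [ha]
    exact Nat.floor_le (by positivity)
  have ha3 : 3 ≤ a := ha₁.trans e1
  have haR : (3 : ℝ) ≤ a := by exact_mod_cast ha3
  have haL2 : L ^ C ≤ 2 * a := by
    have := Nat.lt_floor_add_one (L ^ C)
    rw [← ha] at this
    linarith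
  have hpow : L ^ 2 ≤ (a : ℝ) ^ θ := by
    have h1 : (L ^ C / 2 : ℝ) ≤ a := by linarith
    have h2 : (L ^ C / 2 : ℝ) ^ θ ≤ (a : ℝ) ^ θ :=
      Real.rpow_le_rpow (by positivity) h1 hθ.le
    refine le_trans ?_ h2
    rw [Real.div_rpow (by positivity) (by norm_num), ← Real.rpow_natCast L C,
      ← Real.rpow_mul hL0.le]
    have h3 : L ^ (3 : ℝ) ≤ L ^ ((C : ℝ) * θ) := Real.rpow_le_rpow_of_exponent_le (by linarith) hCθ
    have h4 : (2 : ℝ) ^ θ ≤ 2 := by
      have := Real.rpow_le_rpow_of_exponent_le (x := 2) (by norm_num) (show θ ≤ 1 by linarith)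
      simpa using this
    have h5 : L ^ (3 : ℝ) = L ^ 3 := by
      rw [show (3 : ℝ) = ((3 : ℕ) : ℝ) by norm_num, Real.rpow_natCast]
    rw [h5] at h3
    rw [le_div_iff₀ (by positivity)]
    have h6 : L ^ 2 * (2 : ℝ) ^ θ ≤ L ^ 2 * 2 := mul_le_mul_of_nonneg_left h4 (by positivity)
    have h7 : L ^ 2 * 2 ≤ L ^ 3 := by nlinarith [sq_nonneg L]
    linarith
  have haθ : (a : ℝ) ^ θ ≤ a := by
    have := Real.rpow_le_rpow_of_exponent_le (x := (a : ℝ)) (by linarith) (show θ ≤ 1 by linarith)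
    simpa using this
  have hbad := bad_card hn1 hLn e2 hpow (hpow.trans haθ) hb3
  have hgood := hG1 a e1
  -- comparison
  have hlogA : 0 < Real.log a := Real.log_pos (by linarith)
  have hlogB : Real.log a ≤ C * Real.log L := by
    have := Real.log_le_log (by linarith) haL
    rwa [Real.log_pow] at this
  have hcmp : 12 * a / L ≤ c₁ / 2 * a / Real.log a ^ 4 := by
    rw [div_le_div_iff₀ hL0 (by positivity)]
    have h1 : Real.log a ^ 4 ≤ (C * Real.log L) ^ 4 := pow_le_pow_left₀ hlogA.le hlogB 4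
    rw [mul_pow] at h1
    have h2 : 24 * Real.log a ^ 4 ≤ c₁ * L := by linarith
    have h3 : (0 : ℝ) ≤ a := by linarith
    nlinarith
  refine ⟨(GG b a θ).filter (fun s => Nat.Coprime (s ^ 2 + s + 1) (2 * n)), ?_, ?_⟩
  · have h1 := Finset.card_filter_add_card_filter_not (s := GG b a θ)
      (fun s => Nat.Coprime (s ^ 2 + s + 1) (2 * n))
    have h2 : (((GG b a θ).filter (fun s => Nat.Coprime (s ^ 2 + s + 1) (2 * n))).card : ℝ) +
        (((GG b a θ).filter (fun s => ¬ Nat.Coprime (s ^ 2 + s + 1) (2 * n))).card : ℝ) =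
        ((GG b a θ).card : ℝ) := by exact_mod_cast h1
    have h3 : c₁ * a / Real.log a ^ 4 = c₁ / 2 * a / Real.log a ^ 4 + c₁ / 2 * a / Real.log a ^ 4 := by
      ring
    have h4 : (K : ℝ) < (((GG b a θ).filter (fun s => Nat.Coprime (s ^ 2 + s + 1) (2 * n))).card : ℝ) := by
      linarith
    exact_mod_cast h4
  · intro s hs
    rw [mem_filter, GG, mem_filter, PB, mem_filter, II, mem_Icc] at hs
    obtain ⟨⟨⟨⟨hs1, hs2⟩, hsp, -⟩, -⟩, hsc⟩ := hs
    refine ⟨hsp, ?_, hsc⟩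
    have h1 : (s : ℝ) ≤ 3 * a := (Nat.le_floor_iff (by positivity)).1 hs2
    rw [← hLn, pow_succ]
    have h2 : L ^ C * 3 ≤ L ^ C * L := mul_le_mul_of_nonneg_left e2 (by positivity)
    linarith

end Pool.Agent.Helper3.EL
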